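import Pool.Agent.Helper63.XP.StB
import Pool.Agent.Helper43.XR.M_NRM

/-!
# Project XP (MP_c973ff_an), module NRX: `th` is approximately contractive on `l^p`
-/

set_option autoImplicit false

namespace Pool.Agent.Helper75.XP

open Finset Filter Topology
open Pool.Agent.Helper63.XR (th rec)
open Pool.Agent.Helper49.KX (FS)
open Pool.Agent.Helper63.XP
open Pool.Agent.Helper43.XR (rr rr_coe dvd_iff_rr ev_rec key_rr)

/-- sums of a periodic function over a period -/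
theorem nrx_per (F : ℤ → ℝ) (M : ℕ) (hF : ∀ z, F (z + M) = F z) (a : ℤ) :
    ∑ r ∈ range M, F (a + r) = ∑ r ∈ range M, F r := by
  have step : ∀ a : ℤ, ∑ r ∈ range M, F (a + 1 + r) = ∑ r ∈ range M, F (a + r) := by
    intro a
    have h1 := sum_range_succ' (fun r : ℕ => F (a + r)) M
    have h2 := sum_range_succ (fun r : ℕ => F (a + r)) M
    have h3 : ∑ r ∈ range M, F (a + ((r + 1 : ℕ) : ℤ)) = ∑ r ∈ range M, F (a + 1 + r) := by
      refine sum_congr rfl fun r _ => ?_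
      congr 1
      push_cast
      ring
    rw [h3] at h1
    rw [h1, hF a] at h2
    push_cast at h2
    rw [add_zero] at h2
    linarith
  induction a using Int.induction_on with
  | zero => simp
  | succ n ih => rw [step, ih]
  | pred n ih =>
    rw [← ih, ← step]
    refine sum_congr rfl fun r _ => ?_
    congr 1
    ring

theorem nrx_rr_add (M : ℕ) (hM : 0 < M) (z : ℤ) : rr M hM (z + M) = rr M hM z := by
  unfold rr
  simp

theorem nrx_rr_nat (M : ℕ) (hM : 0 < M) (i : Fin M) : rr M hM ((i : ℕ) : ℤ) = i := by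
  symm
  rw [← dvd_iff_rr]
  simp

theorem nrx_rr_sub (M : ℕ) (hM : 0 < M) (z n : ℤ) : rr M hM (z % M - n) = rr M hM (z - n) := by
  have h : (z % M - n) % M = (z - n) % M := (Int.mod_modEq z M).sub_right n
  unfold rr
  simp only [h]

section

variable {X : Type} [TopologicalSpace X]

theorem nrx_W (h : X ≃ₜ X) (t : X) (g : FS X) (M : ℕ) (hM : 0 < M) (v : Fin M → ℂ) (z : ℤ) :
    (th h t M g).mulVec v (rr M hM z) =
      ∑ n ∈ g.support, g n ((h ^ (z % M) : X ≃ₜ X) t) * v (rr M hM (z - n)) := by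
  unfold Matrix.mulVec dotProduct th Finsupp.sum
  simp only [rr_coe, sum_mul]
  rw [sum_comm]
  refine sum_congr rfl fun n _ => ?_
  rw [Finset.sum_eq_single (rr M hM (z - n))]
  · rw [if_pos]
    rw [rr_coe]
    have h1 : (z - n) % M = (z - n) - M * ((z - n) / M) := by
      have := Int.emod_add_mul_ediv (z - n) M
      linarith
    have h2 : z % M = z - M * (z / M) := by
      have := Int.emod_add_mul_ediv z M
      linarith
    rw [h1, h2]
    exact ⟨z / M - (z - n) / M, by ring⟩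
  · intro j _ hj
    rw [if_neg, zero_mul]
    intro hd
    apply hj
    rw [← nrx_rr_sub, ← dvd_iff_rr, ← dvd_neg]
    have e : -(z % (M : ℤ) - n - ((j : ℕ) : ℤ)) = n + ((j : ℕ) : ℤ) - z % M := by ring
    rw [e]
    exact hd
  · intro hn
    exact absurd (mem_univ _) hn

/-- one window -/
theorem nrx_win (p : ℝ) (hp : 1 ≤ p) (h : X ≃ₜ X) (t : X) (g : FS X) (c δ : ℝ) (hc : 0 ≤ c) (hδ : 0 < δ)
    (hO : OrbLe p h g c) (M : ℕ) (hM : 0 < M) (v : Fin M → ℂ) (L R s : ℕ) (hL : ∀ n ∈ g.support, n.natAbs ≤ L)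
    (hs : s < M) (hRM : R < M)
    (hcl : ∀ n ∈ g.support, ∀ q : ℤ, -(R : ℤ) ≤ q → q ≤ R →
      ‖(g n) ((h ^ (q + M) : X ≃ₜ X) t) - (g n) ((h ^ q : X ≃ₜ X) t)‖ ≤ δ) :
    ∑ r ∈ Ico L (R - L), ‖(th h t M g).mulVec v (rr M hM ((s : ℤ) + r))‖ ^ p ≤
      (c + g.support.card * δ) ^ p * ∑ r ∈ range R, ‖v (rr M hM ((s : ℤ) + r))‖ ^ p := by
  classical
  have hp0 : 0 < p := by linarith
  have hpne : p ≠ 0 := hp0.ne'
  obtain ⟨V, hV⟩ : ∃ V : ℤ → ℂ, V = fun z => v (rr M hM z) := ⟨_, rfl⟩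
  obtain ⟨k, hk⟩ : ∃ k : ℕ, k = g.support.card := ⟨_, rfl⟩
  have hinj : Function.Injective (fun r : ℕ => (s : ℤ) + r) := fun a b hab => by simpa using hab
  obtain ⟨A, hA⟩ : ∃ A : Finset ℤ, A = (range R).image (fun r : ℕ => (s : ℤ) + r) := ⟨_, rfl⟩
  obtain ⟨B, hB⟩ : ∃ B : Finset ℤ, B = (Ico L (R - L)).image (fun r : ℕ => (s : ℤ) + r) := ⟨_, rfl⟩
  obtain ⟨ξ, hξ⟩ : ∃ ξ : ℤ →₀ ℂ, ∀ z, ξ z = if z ∈ A then V z else 0 :=
    ⟨Finsupp.onFinset A (fun z => if z ∈ A then V z else 0) (by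
      intro z hz
      by_contra h
      exact hz (if_neg h)), fun z => rfl⟩
  obtain ⟨N, hN⟩ : ∃ N : ℝ, N = ∑ z ∈ A, ‖V z‖ ^ p := ⟨_, rfl⟩
  have hN0 : 0 ≤ N := by rw [hN]; positivity
  have hzero : ∀ z ∉ A, ‖ξ z‖ ^ p = 0 := by
    intro z hz
    rw [hξ, if_neg hz, norm_zero, Real.zero_rpow hpne]
  have hsum : Summable fun z => ‖ξ z‖ ^ p := summable_of_ne_finset_zero hzero
  have htsum : ∑' z, ‖ξ z‖ ^ p = N := by
    rw [tsum_eq_sum hzero, hN]
    refine sum_congr rfl fun z hz => ?_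
    rw [hξ, if_pos hz]
  have hNr : N = ∑ r ∈ range R, ‖V ((s : ℤ) + r)‖ ^ p := by
    rw [hN, hA, sum_image (fun a _ b _ hab => hinj hab)]
  -- the orbit operator
  obtain ⟨T, hT⟩ : ∃ T : ℤ → ℂ, T = fun m => g.sum fun n f => f ((h ^ m : X ≃ₜ X) t) * ξ (m - n) := ⟨_, rfl⟩
  have hTsum : Summable fun m => ‖T m‖ ^ p := by
    apply summable_of_ne_finset_zero (s := (A ×ˢ g.support).image fun q => q.1 + q.2)
    intro m hm
    have h0 : T m = 0 := by
      rw [hT]
      refine sum_eq_zero fun n hn => ?_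
      have : m - n ∉ A := by
        intro hmem
        apply hm
        exact mem_image.2 ⟨(m - n, n), mem_product.2 ⟨hmem, hn⟩, by simp⟩
      dsimp only
      rw [hξ, if_neg this, mul_zero]
    rw [h0, norm_zero, Real.zero_rpow hpne]
  have hTle : ∑ m ∈ B, ‖T m‖ ^ p ≤ c ^ p * N := by
    refine (hTsum.sum_le_tsum B fun m _ => by positivity).trans ?_
    have h1 := hO t ξ
    rw [htsum] at h1
    rw [hT]
    exact h1
  -- the error
  obtain ⟨e, he⟩ : ∃ e : ℤ → ℝ, e = fun m => ∑ n ∈ g.support, δ * ‖ξ (m - n)‖ := ⟨_, rfl⟩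
  have he0 : ∀ m, 0 ≤ e m := by intro m; rw [he]; positivity
  have hele : ∑ m ∈ B, e m ^ p ≤ ((k : ℝ) * δ) ^ p * N := by
    have h1 : ∀ m ∈ B, e m ^ p ≤ (k : ℝ) ^ (p - 1) * ∑ n ∈ g.support, δ ^ p * ‖ξ (m - n)‖ ^ p := by
      intro m _
      rw [he, hk]
      have h2 := Real.rpow_sum_le_const_mul_sum_rpow_of_nonneg g.support (f := fun n => δ * ‖ξ (m - n)‖) hp
        (fun n _ => by positivity)
      refine h2.trans (le_of_eq ?_)
      congr 1
      refine sum_congr rfl fun n _ => ?_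
      rw [Real.mul_rpow hδ.le (norm_nonneg _)]
    calc ∑ m ∈ B, e m ^ p ≤ ∑ m ∈ B, (k : ℝ) ^ (p - 1) * ∑ n ∈ g.support, δ ^ p * ‖ξ (m - n)‖ ^ p :=
          sum_le_sum h1
      _ = (k : ℝ) ^ (p - 1) * ∑ n ∈ g.support, δ ^ p * ∑ m ∈ B, ‖ξ (m - n)‖ ^ p := by
          rw [← mul_sum, sum_comm]
          congr 1
          refine sum_congr rfl fun n _ => ?_
          rw [mul_sum]
      _ ≤ (k : ℝ) ^ (p - 1) * ∑ n ∈ g.support, δ ^ p * N := by
          gcongr with n _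
          have h3 : Summable fun m : ℤ => ‖ξ (m - n)‖ ^ p :=
            (Equiv.subRight n).summable_iff.2 hsum
          refine (h3.sum_le_tsum B fun m _ => by positivity).trans (le_of_eq ?_)
          rw [← htsum]
          exact (Equiv.subRight n).tsum_eq (fun z => ‖ξ z‖ ^ p)
      _ = ((k : ℝ) * δ) ^ p * N := by
          rw [sum_const, nsmul_eq_mul, ← hk, Real.mul_rpow (by positivity) hδ.le]
          have h4 : (k : ℝ) ^ (p - 1) * k = (k : ℝ) ^ p := by
            rcases Nat.eq_zero_or_pos k with h0 | h0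
            · rw [h0]
              simp [Real.zero_rpow hpne]
            · have : (k : ℝ) ≠ 0 := by exact_mod_cast h0.ne'
              rw [Real.rpow_sub_one this]
              field_simp
          rw [← h4]
          ring
  -- comparison
  have hW : ∀ m ∈ B, ‖(th h t M g).mulVec v (rr M hM m)‖ ≤ ‖T m‖ + e m := by
    intro m hm
    rw [hB] at hm
    obtain ⟨r, hr, rfl⟩ := mem_image.1 hm
    rw [mem_Ico] at hr
    rw [nrx_W h t g M hM v]
    have h1 : ∀ n ∈ g.support, v (rr M hM ((s : ℤ) + r - n)) = ξ ((s : ℤ) + r - n) := by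
      intro n hn
      have h2 := hL n hn
      rw [hξ, if_pos, hV]
      rw [hA]
      refine mem_image.2 ⟨((r : ℤ) - n).toNat, mem_range.2 (by omega), ?_⟩
      have : (0 : ℤ) ≤ (r : ℤ) - n := by omega
      rw [Int.toNat_of_nonneg this]
      ring
    have h5 : ∑ n ∈ g.support, g n ((h ^ (((s : ℤ) + r) % M) : X ≃ₜ X) t) * v (rr M hM ((s : ℤ) + r - n)) =
        T ((s : ℤ) + r) + ∑ n ∈ g.support, (g n ((h ^ (((s : ℤ) + r) % M) : X ≃ₜ X) t) -
          g n ((h ^ ((s : ℤ) + r) : X ≃ₜ X) t)) * ξ ((s : ℤ) + r - n) := by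
      rw [hT]
      simp only [Finsupp.sum]
      rw [← sum_add_distrib]
      refine sum_congr rfl fun n hn => ?_
      rw [h1 n hn]
      ring
    rw [h5]
    refine (norm_add_le _ _).trans ?_
    gcongr
    refine (norm_sum_le _ _).trans ?_
    rw [he]
    refine sum_le_sum fun n hn => ?_
    rw [norm_mul]
    gcongr
    exact key_rr h t (g n) R δ hδ M hRM (hcl n hn) ((s : ℤ) + r) (by omega) (by omega)
  -- Minkowski
  have hmink := Real.Lp_add_le B (fun m => ‖T m‖) e hp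
  obtain ⟨Y, hY⟩ : ∃ Y : ℝ, Y = ∑ m ∈ B, ‖(th h t M g).mulVec v (rr M hM m)‖ ^ p := ⟨_, rfl⟩
  have hY0 : 0 ≤ Y := by rw [hY]; positivity
  have h6 : Y ^ (1 / p) ≤ (c + k * δ) * N ^ (1 / p) := by
    calc Y ^ (1 / p) ≤ (∑ m ∈ B, |‖T m‖ + e m| ^ p) ^ (1 / p) := by
          refine Real.rpow_le_rpow hY0 ?_ (by positivity)
          rw [hY]
          refine sum_le_sum fun m hm => ?_
          refine Real.rpow_le_rpow (norm_nonneg _) ((hW m hm).trans (le_abs_self _)) hp0.le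
      _ ≤ (∑ m ∈ B, |‖T m‖| ^ p) ^ (1 / p) + (∑ m ∈ B, |e m| ^ p) ^ (1 / p) := hmink
      _ ≤ (c ^ p * N) ^ (1 / p) + (((k : ℝ) * δ) ^ p * N) ^ (1 / p) := by
          simp only [abs_norm, abs_of_nonneg (he0 _)]
          gcongr
          exact sum_nonneg fun m _ => Real.rpow_nonneg (he0 m) _
      _ = (c + k * δ) * N ^ (1 / p) := by
          rw [Real.mul_rpow (by positivity) hN0, Real.mul_rpow (by positivity) hN0,
            ← Real.rpow_mul hc, ← Real.rpow_mul (by positivity), mul_one_div_cancel hpne, Real.rpow_one,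
            Real.rpow_one]
          ring
  have h7 : Y ≤ (c + k * δ) ^ p * N := by
    calc Y = (Y ^ (1 / p)) ^ p := by
          rw [← Real.rpow_mul hY0, one_div_mul_cancel hpne, Real.rpow_one]
      _ ≤ ((c + k * δ) * N ^ (1 / p)) ^ p := Real.rpow_le_rpow (by positivity) h6 hp0.le
      _ = (c + k * δ) ^ p * N := by
          rw [Real.mul_rpow (by positivity) (by positivity), ← Real.rpow_mul hN0, one_div_mul_cancel hpne,
            Real.rpow_one]
  have h8 : Y = ∑ r ∈ Ico L (R - L), ‖(th h t M g).mulVec v (rr M hM ((s : ℤ) + r))‖ ^ p := by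
    rw [hY, hB, sum_image (fun a _ b _ hab => hinj hab)]
  rw [← h8, ← hk]
  rw [hNr, hV] at h7
  exact h7

end

theorem hNRX : StNrx := by
  intro p X _ _ h t g c ε hp hc hε hO
  classical
  have hp0 : 0 < p := by linarith
  obtain ⟨L, hL⟩ : ∃ L : ℕ, ∀ n ∈ g.support, n.natAbs ≤ L :=
    ⟨g.support.sup Int.natAbs, fun n hn => le_sup (f := Int.natAbs) hn⟩
  obtain ⟨δ, hδdef⟩ : ∃ δ : ℝ, δ = ε / (2 * (g.support.card + 1)) := ⟨_, rfl⟩
  have hδ : 0 < δ := by rw [hδdef]; positivity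
  have hkδ : (g.support.card : ℝ) * δ ≤ ε / 2 := by
    rw [hδdef, mul_div_assoc', div_le_iff₀ (by positivity)]
    nlinarith
  have hD : (c + ε / 2) ^ p < (c + ε) ^ p := Real.rpow_lt_rpow (by positivity) (by linarith) hp0
  obtain ⟨R, hR⟩ : ∃ R : ℕ, 2 * L < R ∧ (c + ε / 2) ^ p * R ≤ (c + ε) ^ p * ((R : ℝ) - 2 * L) := by
    obtain ⟨R, hR⟩ := exists_nat_ge ((c + ε) ^ p * (2 * L) / ((c + ε) ^ p - (c + ε / 2) ^ p))
    refine ⟨R + 2 * L + 1, by omega, ?_⟩
    have h1 : 0 < (c + ε) ^ p - (c + ε / 2) ^ p := by linarith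
    rw [div_le_iff₀ h1] at hR
    push_cast
    have h2 : 0 ≤ ((c + ε) ^ p - (c + ε / 2) ^ p) * (2 * L + 1) := by positivity
    nlinarith
  obtain ⟨hR1, hR2⟩ := hR
  have hev : ∀ᶠ M : ℕ in rec h t, ∀ n ∈ g.support, R < M ∧ ∀ q : ℤ, -(R : ℤ) ≤ q →
      q ≤ R → ‖(g n) ((h ^ (q + M) : X ≃ₜ X) t) - (g n) ((h ^ q : X ≃ₜ X) t)‖ ≤ δ := by
    rw [eventually_all_finset]
    intro n _
    exact ev_rec h t (g n) R δ hδ
  have hevM : ∀ᶠ M : ℕ in rec h t, R < M := (eventually_gt_atTop R).filter_mono inf_le_left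
  filter_upwards [hev, hevM] with M hM1 hRM
  have hM : 0 < M := by omega
  intro v
  have hwin := fun (s : ℕ) (hs : s < M) => nrx_win p hp h t g c δ hc hδ hO M hM v L R s hL hs hRM
    (fun n hn => (hM1 n hn).2)
  obtain ⟨F, hF⟩ : ∃ F : ℤ → ℝ, F = fun z => ‖(th h t M g).mulVec v (rr M hM z)‖ ^ p := ⟨_, rfl⟩
  obtain ⟨G, hG⟩ : ∃ G : ℤ → ℝ, G = fun z => ‖v (rr M hM z)‖ ^ p := ⟨_, rfl⟩
  have hFp : ∀ z, F (z + M) = F z := by intro z; rw [hF]; simp only [nrx_rr_add]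
  have hGp : ∀ z, G (z + M) = G z := by intro z; rw [hG]; simp only [nrx_rr_add]
  have hFs : ∑ r ∈ range M, F r = np p ((th h t M g).mulVec v) := by
    rw [Finset.sum_range, hF]
    unfold np
    refine sum_congr rfl fun i _ => ?_
    simp only [nrx_rr_nat]
  have hGs : ∑ r ∈ range M, G r = np p v := by
    rw [Finset.sum_range, hG]
    unfold np
    refine sum_congr rfl fun i _ => ?_
    simp only [nrx_rr_nat]
  have h1 : ∑ s ∈ range M, ∑ r ∈ Ico L (R - L), F ((s : ℤ) + r) ≤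
      ∑ s ∈ range M, (c + ε / 2) ^ p * ∑ r ∈ range R, G ((s : ℤ) + r) := by
    refine sum_le_sum fun s hs => ?_
    have h2 := hwin s (mem_range.1 hs)
    rw [hF, hG]
    refine h2.trans ?_
    gcongr
  have h3 : ∑ s ∈ range M, ∑ r ∈ Ico L (R - L), F ((s : ℤ) + r) =
      ((R : ℝ) - 2 * L) * np p ((th h t M g).mulVec v) := by
    rw [sum_comm]
    have h4 : ∀ r ∈ Ico L (R - L), ∑ s ∈ range M, F ((s : ℤ) + r) = np p ((th h t M g).mulVec v) := by
      intro r _
      rw [← hFs, ← nrx_per F M hFp r]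
      refine sum_congr rfl fun s _ => ?_
      rw [add_comm]
    rw [sum_congr rfl h4, sum_const, nsmul_eq_mul, Nat.card_Ico]
    congr 1
    have : ((R - L - L : ℕ) : ℝ) = (R : ℝ) - 2 * L := by
      rw [Nat.cast_sub (by omega), Nat.cast_sub (by omega)]
      ring
    exact this
  have h5 : ∑ s ∈ range M, (c + ε / 2) ^ p * ∑ r ∈ range R, G ((s : ℤ) + r) =
      (c + ε / 2) ^ p * (R * np p v) := by
    rw [← mul_sum, sum_comm]
    have h4 : ∀ r ∈ range R, ∑ s ∈ range M, G ((s : ℤ) + r) = np p v := by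
      intro r _
      rw [← hGs, ← nrx_per G M hGp r]
      refine sum_congr rfl fun s _ => ?_
      rw [add_comm]
    rw [sum_congr rfl h4, sum_const, nsmul_eq_mul, card_range]
  rw [h3, h5] at h1
  have hnp : 0 ≤ np p v := by unfold np; positivity
  have hRL : (0 : ℝ) < (R : ℝ) - 2 * L := by
    have : ((2 * L : ℕ) : ℝ) < R := by exact_mod_cast hR1
    push_cast at this
    linarith
  have h6 : ((R : ℝ) - 2 * L) * np p ((th h t M g).mulVec v) ≤
      ((R : ℝ) - 2 * L) * ((c + ε) ^ p * np p v) := by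
    refine h1.trans ?_
    calc (c + ε / 2) ^ p * (R * np p v) = ((c + ε / 2) ^ p * R) * np p v := by ring
      _ ≤ ((c + ε) ^ p * ((R : ℝ) - 2 * L)) * np p v := by gcongr
      _ = ((R : ℝ) - 2 * L) * ((c + ε) ^ p * np p v) := by ring
  exact le_of_mul_le_mul_left h6 hRL

end Pool.Agent.Helper75.XP
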